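import Pool.Agent.W16.CM.Stm
import Pool.Agent.Helper256.KM.Mertens

set_option autoImplicit false

open Finset

namespace Pool.Agent.W898.CM

open Pool.Agent.W16.CM

theorem mer : St_MER := by
  obtain ⟨C, hC⟩ := Pool.Agent.Helper256.KM.mertens_log
  have hC0 : 0 ≤ C := (abs_nonneg _).trans (hC 1 le_rfl)
  refine ⟨⌈Real.exp (39 + 2 * C)⌉₊ + 2, fun T hT => ?_⟩
  have hT2 : 2 ≤ T := by omega
  have hT0 : (0 : ℝ) < T := by exact_mod_cast (by omega : 0 < T)
  have hlog : 39 + 2 * C ≤ Real.log T := by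
    rw [Real.le_log_iff_exp_le hT0]
    refine (Nat.le_ceil _).trans ?_
    exact_mod_cast (by omega : ⌈Real.exp (39 + 2 * C)⌉₊ ≤ T)
  have hlogpos : 0 < Real.log T := by linarith
  have h10 := hC (T ^ 10) (Nat.one_le_pow _ _ (by omega))
  have h39 := hC (T ^ 39) (Nat.one_le_pow _ _ (by omega))
  have hsub : (Icc 1 (T ^ 10)).filter Nat.Prime ⊆ (Icc 1 (T ^ 39)).filter Nat.Prime := by
    intro p hp
    rw [mem_filter, mem_Icc] at hp ⊢
    exact ⟨⟨hp.1.1, hp.1.2.trans (Nat.pow_le_pow_right (by omega) (by norm_num))⟩, hp.2⟩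
  have hsd : (Icc 1 (T ^ 39)).filter Nat.Prime \ (Icc 1 (T ^ 10)).filter Nat.Prime =
      (Ioc (T ^ 10) (T ^ 39)).filter Nat.Prime := by
    ext p
    simp only [mem_sdiff, mem_filter, mem_Icc, mem_Ioc, not_and]
    constructor
    · rintro ⟨⟨⟨h1, h2⟩, h3⟩, h4⟩
      refine ⟨⟨?_, h2⟩, h3⟩
      by_contra hcon
      exact h4 ⟨h1, by omega⟩ h3
    · rintro ⟨⟨h1, h2⟩, h3⟩
      exact ⟨⟨⟨h3.one_lt.le, h2⟩, h3⟩, fun h4 => absurd h4.2 (by omega)⟩
  have hsum := Finset.sum_sdiff hsub (f := fun p : ℕ => Real.log p / (p : ℝ))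
  rw [hsd] at hsum
  rw [abs_le] at h10 h39
  have e10 : Real.log ((T ^ 10 : ℕ) : ℝ) = 10 * Real.log T := by
    push_cast; rw [Real.log_pow]; norm_num
  have e39 : Real.log ((T ^ 39 : ℕ) : ℝ) = 39 * Real.log T := by
    push_cast; rw [Real.log_pow]; norm_num
  rw [e10] at h10
  rw [e39] at h39
  have hlow : 29 * Real.log T - 2 * C ≤
      ∑ p ∈ (Ioc (T ^ 10) (T ^ 39)).filter Nat.Prime, Real.log p / (p : ℝ) := by
    linarith [h10.2, h39.1]
  have hup : ∑ p ∈ (Ioc (T ^ 10) (T ^ 39)).filter Nat.Prime, Real.log p / (p : ℝ) ≤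
      39 * Real.log T * ∑ p ∈ (Ioc (T ^ 10) (T ^ 39)).filter Nat.Prime, (1 : ℝ) / p := by
    rw [Finset.mul_sum]
    refine Finset.sum_le_sum fun p hp => ?_
    rw [mem_filter, mem_Ioc] at hp
    have hp0 : (0 : ℝ) < p := by exact_mod_cast hp.2.pos
    have hlp : Real.log p ≤ 39 * Real.log T := by
      rw [← e39]
      exact Real.log_le_log hp0 (by exact_mod_cast hp.1.2)
    rw [mul_one_div]
    exact div_le_div_of_nonneg_right hlp hp0.le
  have hkey : (39 : ℝ) ≤ 29 * Real.log T - 2 * C := by nlinarith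
  rw [div_le_iff₀ hlogpos]
  have h3 := hkey.trans (hlow.trans hup)
  nlinarith [h3]

end Pool.Agent.W898.CM
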